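import Pool.Agent.helper19.AR.Basic
import Pool.Agent.helper52.AR.PDm
import Pool.Agent.helper52.AR.PB
import Pool.Agent.helper35.AR.RQ
import Pool.Agent.helper9.AR.PA
import Pool.Agent.helper13.AR.SM
import Pool.Agent.helper13.AR.PD
import Pool.Agent.helper36.AR.ELa
import Pool.Agent.helper36.AR.EL

/-!
# Aharoni's rainbow cycle conjecture for large `n` (MP_962e14_co): one reduction step
-/

namespace Pool.Agent.helper19.AR

/-- the layered strand of the cut system, away from the strand, is a layered strand of the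
system -/
theorem RD1_lay {α β : Type} [DecidableEq α] [DecidableEq β] (r N m M M1 a : ℕ) (hr : 2 ≤ r)
    (hN : r + r * m ≤ N) (hNm : N - r * m = 2 * r) (S S' : Sys α β) (u : ℕ → α) (c : ℕ → β)
    (hP : Perf r N S u c) (hC : IsCut r N m S S' u c) (hG' : Good r S')
    (hP' : Perf r (N - r * m) S' (cutu r N m u) c) (v : ℕ → ℕ → α) (c1 : ℕ → ℕ → β)
    (L : ℕ → ℕ → Finset α) (hL : Lay r M1 S' v c1 L) (ha : a + M ≤ M1)
    (hX : ∀ j ≤ M, ∀ i < r, v (a + j) i ∉ (Finset.range (3 * r)).image (cutu r N m u)) :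
    (∀ j ≤ M, ∀ i < r, ∀ k < N + r, v (a + j) i ≠ u k) ∧
    (∀ j < M, ∀ i < r, ∀ k < N, c1 (a + j) i ≠ c k) ∧
    Lay r M S (fun j i => v (a + j) i) (fun j i => c1 (a + j) i) (fun j i => L (a + j) i) := by
  have h1 : ∀ j ≤ M, ∀ i < r, ∀ k < N + r, v (a + j) i ≠ u k := by
    intro j hj i hi k hk heq
    have hv := hL.v_mem (a + j) (by omega) i hi
    rw [hC.V_iff] at hv
    have hx := hX j hj i hi
    rw [Finset.mem_image] at hx
    rcases lt_or_ge k (N - r * m) with h | h
    · apply hx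
      refine ⟨k, Finset.mem_range.mpr (by omega), ?_⟩
      unfold cutu
      rw [if_pos h, heq]
    · rcases lt_or_ge k N with h' | h'
      · exact hv.2 k h h' heq
      · apply hx
        refine ⟨k - r * m, Finset.mem_range.mpr (by omega), ?_⟩
        unfold cutu
        rw [if_neg (by omega), Nat.sub_add_cancel (by omega), heq]
  have h2 : ∀ j < M, ∀ i < r, ∀ k < N, c1 (a + j) i ≠ c k := by
    intro j hj i hi k hk heq
    have hcm := hL.c_mem (a + j) (by omega) i hi
    have hk' : k < N - r * m := by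
      by_contra hcon
      rw [hC.C_iff] at hcm
      exact hcm.2 k (by omega) hk heq
    have hcard : 2 ≤ (S'.E (c1 (a + j) i)).card := by
      rw [(hG'.2 _ hcm).1]; exact hr
    have hs1 : IsStar S' (v (a + j) i) (c1 (a + j) i) := by
      intro e he
      rw [hL.c_E (a + j) (by omega) i hi] at he
      obtain ⟨w, _, rfl⟩ := he
      exact Sym2.mem_mk_left _ _
    have hs2 : IsStar S' (cutu r N m u k) (c1 (a + j) i) := by
      intro e he
      rw [heq, hP'.c_E k hk'] at he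
      obtain ⟨t, _, _, rfl⟩ := he
      exact Sym2.mem_mk_left _ _
    have hst := star_unique S' _ hcard _ _ hs1 hs2
    apply h1 j (by omega) i hi k (by omega)
    rw [hst]
    unfold cutu
    rw [if_pos hk']
  have h3 : ∀ j < M, ∀ i < r, S'.E (c1 (a + j) i) = S.E (c1 (a + j) i) := by
    intro j hj i hi
    exact hC.E_ne _ fun k hk => h2 j hj i hi k hk
  refine ⟨h1, h2, ?_, ?_, ?_, ?_, ?_, ?_, ?_, ?_⟩
  · intro j hj i hi
    exact ((hC.V_iff _).1 (hL.v_mem (a + j) (by omega) i hi)).1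
  · intro j hj i hi j' hj' i' hi' h
    have := hL.v_inj (a + j) (by omega) i hi (a + j') (by omega) i' hi' h
    exact ⟨by omega, this.2⟩
  · intro j hj i hi
    exact ((hC.C_iff _).1 (hL.c_mem (a + j) (by omega) i hi)).1
  · intro j hj i hi j' hj' i' hi' h
    have := hL.c_inj (a + j) (by omega) i hi (a + j') (by omega) i' hi' h
    exact ⟨by omega, this.2⟩
  · intro j hj i hi e
    show e ∈ S.E (c1 (a + j) i) ↔ _
    rw [← h3 j hj i hi]
    exact hL.c_E (a + j) (by omega) i hi e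
  · intro j hj i hi
    exact hL.N_card (a + j) (by omega) i hi
  · intro j hj i hi w hw
    exact hL.N_sub (a + j) (by omega) i hi w hw
  · intro b hb e he j hj1 hjM i hi hve
    by_cases hbc : ∃ k < N, b = c k
    · exfalso
      obtain ⟨k, hk, rfl⟩ := hbc
      rw [hP.c_E k hk] at he
      obtain ⟨t, ht1, ht2, rfl⟩ := he
      rcases Sym2.mem_iff.mp hve with h | h
      · exact h1 j (by omega) i hi k (by omega) h
      · exact h1 j (by omega) i hi (k + t) (by omega) h
    · push Not at hbc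
      have hb' : b ∈ S'.C := (hC.C_iff b).2 ⟨hb, fun k _ hk => hbc k hk⟩
      rw [← hC.E_ne b hbc] at he
      obtain ⟨j2, hj2, i2, hi2, rfl⟩ := hL.clean b hb' e he (a + j) (by omega) (by omega) i hi hve
      rw [hL.c_E j2 hj2 i2 hi2] at he
      obtain ⟨w, hw, rfl⟩ := he
      have hcase : a + j = j2 ∨ a + j = j2 + 1 := by
        rcases Sym2.mem_iff.mp hve with h | h
        · exact Or.inl (hL.v_inj (a + j) (by omega) i hi j2 (by omega) i2 hi2 h).1
        · rcases hL.N_sub j2 hj2 i2 hi2 w hw with ⟨i3, hi3, _, h3⟩ | ⟨i3, hi3, h3⟩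
          · exact Or.inl (hL.v_inj (a + j) (by omega) i hi j2 (by omega) i3 hi3 (h.trans h3)).1
          · exact Or.inr (hL.v_inj (a + j) (by omega) i hi (j2 + 1) (by omega) i3 hi3
              (h.trans h3)).1
      refine ⟨j2 - a, by omega, i2, hi2, ?_⟩
      show c1 j2 i2 = c1 (a + (j2 - a)) i2
      rw [show a + (j2 - a) = j2 by omega]

theorem RD1 (r : ℕ) (hr : 2 ≤ r) : ∃ n1 : ℕ, ∀ (N0 : ℕ), 3 ≤ N0 → ∀ (α β : Type)
    [DecidableEq α] [DecidableEq β] (S : Sys α β) (ℓ : ℕ) (u : ℕ → α) (c : ℕ → β),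
    CE r S ℓ → Perf r (r * N0) S u c → r * N0 + n1 ≤ S.V.card →
    ∃ (S' : Sys α β) (ℓ' : ℕ), CE r S' ℓ' ∧ Perf r (r * N0) S' u c ∧
      S'.V.card < S.V.card := by
  set p : ℕ := r ^ 2 + r + 1 with hp
  set M : ℕ := p + 2 + r ^ 2 + 2 with hM
  set M1 : ℕ := (3 * r + 1) * (M + 1) - 1 with hM1
  have hM1' : (3 * r + 1) * (M + 1) ≤ M1 + 1 := by omega
  obtain ⟨n1, hSM⟩ := SM r M1 hr
  refine ⟨n1, ?_⟩
  intro N0 hN0 α β _ _ S ℓ u c hCE hP hn
  obtain ⟨hG, hS, hVl⟩ := hCE
  -- shorten the strand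
  set m : ℕ := N0 - 2 with hm
  have hrm : r * m + 2 * r = r * N0 := by
    rw [hm, Nat.mul_sub, Nat.mul_comm 2 r]
    have : r * 2 ≤ r * N0 := Nat.mul_le_mul_left r (by omega)
    omega
  have hN : r + r * m ≤ r * N0 := by omega
  have hNm : r * N0 - r * m = 2 * r := by omega
  obtain ⟨Sm, hC, hGm, hPm, hcm⟩ := ELa r (r * N0) m hr hN S u c hG hP
  have hSm : Sparse Sm (ℓ - m) := EL r (r * N0) m ℓ hr (by omega) hN S Sm u c hG hP hC hS
  have hCEm : CE r Sm (ℓ - m) := by
    refine ⟨hGm, hSm, ?_⟩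
    rw [Nat.mul_sub]
    omega
  obtain ⟨v, c1, L, hL⟩ := hSM α β Sm (ℓ - m) hCEm (by omega)
  obtain ⟨a, ha, hX⟩ := RDa r M M1 v ((Finset.range (3 * r)).image (cutu r (r * N0) m u))
    (le_trans Finset.card_image_le (by rw [Finset.card_range])) hM1' hL.v_inj
  obtain ⟨h1, h2, hL'⟩ := RD1_lay r (r * N0) m M M1 a hr hN hNm S Sm u c hP hC hGm hPm v c1 L
    hL ha hX
  set v' : ℕ → ℕ → α := fun j i => v (a + j) i with hv'
  set c' : ℕ → ℕ → β := fun j i => c1 (a + j) i with hc'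
  set L' : ℕ → ℕ → Finset α := fun j i => L (a + j) i with hL''
  obtain ⟨q, hq1, hq2, hR⟩ := RQ r M p 2 hr le_rfl S v' c' L' hL'
  obtain ⟨S1, hMod, hG1, hL1⟩ := PA r M p q hr hq2.le S v' c' L' hL' hG
  have hS1 : Sparse S1 ℓ := PD r M p q ℓ hr le_rfl (by omega) hq2 S S1 v' c' L' hL' hMod hL1 hR hS
  have hP1 := PB r M p q hr (by omega) (by omega) hq2.le S S1 v' c' L' hL' hMod hL1
  set u2 : ℕ → α := fun j => v' (p + j / r) (j % r) with hu2
  set c2 : ℕ → β := fun j => c' (p + j / r) (j % r) with hc2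
  have hr0 : 0 < r := by omega
  have hN2 : r + r * 1 ≤ r * (q - p) := by
    have : r * 3 ≤ r * (q - p) := Nat.mul_le_mul_left r (by omega)
    omega
  obtain ⟨S2, hC2, hG2, hP2, hcard2⟩ := ELa r (r * (q - p)) 1 hr hN2 S1 u2 c2 hG1 hP1
  have hS2 : Sparse S2 (ℓ - 1) :=
    EL r (r * (q - p)) 1 ℓ hr le_rfl hN2 S1 S2 u2 c2 hG1 hP1 hC2 hS1
  have hV1 : S1.V = S.V := hMod.V_eq
  rw [hV1] at hcard2
  -- the new strand avoids the old one
  have hdiv : ∀ x, x < r * (q - p) + r → p + x / r ≤ q := by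
    intro x hx
    have : x / r < q - p + 1 := by
      rw [Nat.div_lt_iff_lt_mul hr0]
      rw [Nat.add_mul, Nat.one_mul, Nat.mul_comm (q - p) r]
      exact hx
    omega
  have hdiv' : ∀ x, x < r * (q - p) → p + x / r < q := by
    intro x hx
    have : x / r < q - p := by
      rw [Nat.div_lt_iff_lt_mul hr0, Nat.mul_comm (q - p) r]
      exact hx
    omega
  have hu2u : ∀ x, x < r * (q - p) + r → ∀ k < r * N0 + r, u2 x ≠ u k := by
    intro x hx k hk
    exact h1 (p + x / r) (by have := hdiv x hx; omega) (x % r) (Nat.mod_lt _ hr0) k hk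
  have hc2c : ∀ x, x < r * (q - p) → ∀ k < r * N0, c2 x ≠ c k := by
    intro x hx k hk
    exact h2 (p + x / r) (by have := hdiv' x hx; omega) (x % r) (Nat.mod_lt _ hr0) k hk
  have hcc' : ∀ k < r * N0, ∀ j, p ≤ j → j < q → ∀ i < r, c k ≠ c' j i := by
    intro k hk j hj1 hj2 i hi heq
    exact h2 j (by omega) i hi k hk heq.symm
  refine ⟨S2, ℓ - 1, ⟨hG2, hS2, ?_⟩, ⟨?_, ?_, ?_, ?_, ?_, ?_⟩, by omega⟩
  · rw [Nat.mul_sub]
    omega
  · intro j hj
    rw [hC2.V_iff, hV1]
    refine ⟨hP.u_mem j hj, fun x _ hx heq => hu2u x (by omega) j hj heq.symm⟩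
  · exact hP.u_inj
  · intro j hj
    rw [hC2.C_iff, hMod.C_eq]
    exact ⟨hP.c_mem j hj, fun x _ hx heq => hc2c x hx j hj heq.symm⟩
  · exact hP.c_inj
  · intro j hj e
    rw [hC2.E_ne (c j) (fun x hx heq => hc2c x hx j hj heq.symm),
      hMod.E_ne (c j) (fun j' h1 h2 i hi => hcc' j hj j' h1 h2 i hi)]
    exact hP.c_E j hj e
  · intro b hb hbc e he j hj1 hj2 hue
    by_cases hb2 : ∃ x < r * (q - p), b = c2 x
    · obtain ⟨x, hx, rfl⟩ := hb2
      have hx' : x < r * (q - p) - r * 1 := by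
        by_contra hcon
        exact ((hC2.C_iff _).1 hb).2 x (by omega) hx rfl
      rw [hC2.E_in x hx'] at he
      obtain ⟨t, ht1, ht2, rfl⟩ := he
      rcases Sym2.mem_iff.mp hue with h | h
      · exact hu2u x (by omega) j (by omega) h.symm
      · unfold cutu at h
        split_ifs at h with hlt
        · exact hu2u (x + t) (by omega) j (by omega) h.symm
        · exact hu2u (x + t + r * 1) (by omega) j (by omega) h.symm
    · push Not at hb2
      rw [hC2.E_ne b hb2] at he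
      have hb3 : ∀ j', p ≤ j' → j' < q → ∀ i < r, b ≠ c' j' i := by
        intro j' h1 h2 i hi heq
        apply hb2 (r * (j' - p) + i) ?_
        · rw [heq, hc2]
          show c' j' i = c' (p + (r * (j' - p) + i) / r) ((r * (j' - p) + i) % r)
          rw [Nat.mul_add_div hr0, Nat.div_eq_of_lt hi, Nat.mul_add_mod, Nat.mod_eq_of_lt hi,
            Nat.add_zero, show p + (j' - p) = j' by omega]
        · calc r * (j' - p) + i < r * (j' - p) + r := by omega
            _ = r * (j' - p + 1) := by ring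
            _ ≤ r * (q - p) := Nat.mul_le_mul_left r (by omega)
      rw [hMod.E_ne b hb3] at he
      have hbC : b ∈ S.C := by
        have := ((hC2.C_iff _).1 hb).1
        rwa [hMod.C_eq] at this
      exact hP.clean b hbC hbc e he j hj1 hj2 hue

end Pool.Agent.helper19.AR
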