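import Pool.Agent.helper19.AR.Basic
import Pool.Agent.helper63.AR.CVl
import Pool.Agent.helper18.AR.CVh

/-!
# Aharoni's rainbow cycle conjecture for large `n` (MP_962e14_co): the cover is sparse
-/

namespace Pool.Agent.helper19.AR

theorem CV {α β : Type} [DecidableEq α] [DecidableEq β] (r N k ℓ m : ℕ) [NeZero k] (hr : 2 ≤ r)
    (hN : r < N) (S : Sys α β) (u : ℕ → α) (c : ℕ → β) (hG : Good r S) (hP : Perf r N S u c)
    (hS : Sparse S ℓ) (hℓ : S.V.card + r ≤ N + ℓ)
    (S' : Sys (α × ZMod k) (β × ZMod k)) (hC : IsCover r N k S S' u c)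
    (hm : r * m < k * (r * ℓ + 1)) : Sparse S' m := by
  classical
  intro A hA hAne hAm
  by_contra hcon
  push Not at hcon
  set H : ZMod k → Finset α := fun i => S.V.filter fun x => (x, i) ∈ A ∧ ∀ j < N, x ≠ u j with hHd
  set J : ZMod k → Finset ℕ := fun i => (Finset.range N).filter fun j => (u j, i) ∈ A with hJd
  set F : ZMod k → Finset β := fun i => S.C.filter fun a => (a, i) ∈ col S' A ∧ ∀ j < N, a ≠ c j
    with hFd
  set G : ZMod k → Finset ℕ := fun i => (Finset.range N).filter fun j => (c j, i) ∈ col S' A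
    with hGd
  have memH : ∀ i x, x ∈ H i ↔ x ∈ S.V ∧ (x, i) ∈ A ∧ ∀ j < N, x ≠ u j := by
    intro i x
    simp only [hHd, Finset.mem_filter]
  have memJ : ∀ i j, j ∈ J i ↔ j < N ∧ (u j, i) ∈ A := by
    intro i j
    simp only [hJd, Finset.mem_filter, Finset.mem_range]
  have memF : ∀ i a, a ∈ F i ↔ a ∈ S.C ∧ (a, i) ∈ col S' A ∧ ∀ j < N, a ≠ c j := by
    intro i a
    simp only [hFd, Finset.mem_filter]
  have memG : ∀ i j, j ∈ G i ↔ j < N ∧ (c j, i) ∈ col S' A := by
    intro i j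
    simp only [hGd, Finset.mem_filter, Finset.mem_range]
  have hGJ : ∀ i, G i ⊆ J i := by
    intro i j hj
    rw [memG, mem_col] at hj
    obtain ⟨hjN, _, e, he, hx⟩ := hj
    rw [hC.E_in j hjN i] at he
    obtain ⟨t, _, _, rfl⟩ := he
    rw [memJ]
    exact ⟨hjN, hx _ (Sym2.mem_mk_left _ _)⟩
  have hFH : ∀ i, (F i).card ≤ (H i).card ∧ ((F i).card = (H i).card → (H i).Nonempty →
      ∃ x ∈ J i, x < r) := by
    intro i
    refine CVh r N ℓ hr hN S u c hG hP hS hℓ (H i) (fun x hx => ((memH i x).1 hx).1)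
      (fun j hj hx => ((memH i _).1 hx).2.2 j hj rfl) (J i)
      (fun j hj => Finset.mem_range.2 ((memJ i j).1 hj).1) (F i) ?_
    intro a ha
    rw [memF, mem_col] at ha
    obtain ⟨haC, ⟨_, e, he, hx⟩, hac⟩ := ha
    refine ⟨haC, hac, ?_⟩
    rw [hC.E_ne a i hac] at he
    obtain ⟨x, y, hxy, rfl⟩ := he
    refine ⟨s(x, y), hxy, ?_⟩
    have key : ∀ z, (z, i) ∈ A → z ∈ H i ∨ ∃ j ∈ J i, z = u j := by
      intro z hz
      by_cases h : ∃ j < N, z = u j
      · obtain ⟨j, hj, rfl⟩ := h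
        exact Or.inr ⟨j, (memJ i j).2 ⟨hj, hz⟩, rfl⟩
      · push Not at h
        exact Or.inl ((memH i z).2 ⟨(hC.V_iff z i).1 (hA hz), hz, h⟩)
    intro z hz
    rcases Sym2.mem_iff.mp hz with rfl | rfl
    · exact key _ (hx _ (Sym2.mem_mk_left _ _))
    · exact key _ (hx _ (Sym2.mem_mk_right _ _))
  -- the size of `A`
  have hAc : ∑ i, ((H i).card + (J i).card) ≤ A.card := by
    rw [Finset.card_eq_sum_card_fiberwise (f := Prod.snd) (t := Finset.univ)
      (fun _ _ => Finset.mem_coe.2 (Finset.mem_univ _))]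
    refine Finset.sum_le_sum fun i _ => ?_
    have e1 : ((H i).image fun x => (x, i)).card = (H i).card :=
      Finset.card_image_of_injective _ fun x y h => (Prod.mk.inj h).1
    have e2 : ((J i).image fun j => (u j, i)).card = (J i).card := by
      apply Finset.card_image_of_injOn
      intro x hx y hy h
      have hx' := ((memJ i x).1 (Finset.mem_coe.1 hx)).1
      have hy' := ((memJ i y).1 (Finset.mem_coe.1 hy)).1
      exact hP.u_inj x (by omega) y (by omega) (Prod.mk.inj h).1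
    rw [← e1, ← e2, ← Finset.card_union_of_disjoint]
    · apply Finset.card_le_card
      intro z hz
      rw [Finset.mem_filter]
      rcases Finset.mem_union.1 hz with h | h
      · obtain ⟨x, hx, rfl⟩ := Finset.mem_image.1 h
        exact ⟨((memH i x).1 hx).2.1, rfl⟩
      · obtain ⟨j, hj, rfl⟩ := Finset.mem_image.1 h
        exact ⟨((memJ i j).1 hj).2, rfl⟩
    · rw [Finset.disjoint_left]
      intro z hz hz'
      obtain ⟨x, hx, rfl⟩ := Finset.mem_image.1 hz
      obtain ⟨j, hj, h⟩ := Finset.mem_image.1 hz'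
      exact ((memH i x).1 hx).2.2 j ((memJ i j).1 hj).1 (Prod.mk.inj h).1.symm
  -- the number of colours
  have hCc : (col S' A).card ≤ ∑ i, ((F i).card + (G i).card) := by
    rw [Finset.card_eq_sum_card_fiberwise (f := Prod.snd) (t := Finset.univ)
      (fun _ _ => Finset.mem_coe.2 (Finset.mem_univ _))]
    refine Finset.sum_le_sum fun i _ => ?_
    have e1 : ((F i).image fun x => (x, i)).card ≤ (F i).card := Finset.card_image_le
    have e2 : ((G i).image fun j => (c j, i)).card ≤ (G i).card := Finset.card_image_le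
    refine le_trans (le_trans (Finset.card_le_card ?_) (Finset.card_union_le _ _))
      (Nat.add_le_add e1 e2)
    intro z hz
    rw [Finset.mem_filter] at hz
    obtain ⟨a, i'⟩ := z
    obtain ⟨hz1, rfl⟩ := hz
    rw [Finset.mem_union, Finset.mem_image, Finset.mem_image]
    by_cases h : ∃ j < N, a = c j
    · obtain ⟨j, hj, rfl⟩ := h
      exact Or.inr ⟨j, (memG _ j).2 ⟨hj, hz1⟩, rfl⟩
    · push Not at h
      exact Or.inl ⟨a, (memF _ a).2 ⟨(hC.C_iff a _).1 (((mem_col _ _ _).1 hz1).1), hz1, h⟩, rfl⟩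
  have hGJc : ∀ i, (G i).card ≤ (J i).card := fun i => Finset.card_le_card (hGJ i)
  -- equality everywhere
  have heq : ∀ i, (F i).card = (H i).card ∧ (G i).card = (J i).card := by
    intro i
    by_contra hne
    have hlt : (F i).card + (G i).card < (H i).card + (J i).card := by
      have h1 := (hFH i).1
      have h2 := hGJc i
      by_contra h3
      exact hne ⟨by omega, by omega⟩
    have := Finset.sum_lt_sum (s := Finset.univ) (f := fun i => (F i).card + (G i).card)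
      (g := fun i => (H i).card + (J i).card)
      (fun i _ => Nat.add_le_add (hFH i).1 (hGJc i)) ⟨i, Finset.mem_univ _, hlt⟩
    omega
  have hJG : ∀ i, G i = J i := fun i =>
    Finset.eq_of_subset_of_card_le (hGJ i) (heq i).2.ge
  set Y : ZMod k → Finset ℕ := fun i => (Finset.range r).filter fun τ => u (N + τ) ∈ H (i + 1)
    with hYd
  have memY : ∀ i τ, τ ∈ Y i ↔ τ < r ∧ u (N + τ) ∈ H (i + 1) := by
    intro i τ
    simp only [hYd, Finset.mem_filter, Finset.mem_range]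
  have hJa : ∀ i, ∀ x ∈ J i, ∃ t, 1 ≤ t ∧ t ≤ r ∧
      (x + t ∈ J i ∨ (N ≤ x + t ∧ x + t - N ∈ Y i)) := by
    intro i x hx
    rw [← hJG i, memG, mem_col] at hx
    obtain ⟨hxN, _, e, he, hz⟩ := hx
    rw [hC.E_in x hxN i] at he
    obtain ⟨t, ht1, ht2, rfl⟩ := he
    refine ⟨t, ht1, ht2, ?_⟩
    have h1 := hz _ (Sym2.mem_mk_right _ _)
    by_cases h : x + t < N
    · rw [if_pos h] at h1
      exact Or.inl ((memJ i _).2 ⟨h, h1⟩)
    · rw [if_neg h] at h1
      refine Or.inr ⟨by omega, (memY i _).2 ⟨by omega, ?_⟩⟩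
      rw [show N + (x + t - N) = x + t by omega]
      rw [memH]
      refine ⟨(hC.V_iff _ _).1 (hA h1), h1, ?_⟩
      intro j hj hju
      have := hP.u_inj (x + t) (by omega) j (by omega) hju
      omega
  have hJH : ∀ i, (J i).Nonempty → (H (i + 1)).Nonempty := by
    intro i hi
    obtain ⟨t, ht1, ht2, ht⟩ := hJa i _ (Finset.max'_mem (J i) hi)
    rcases ht with ht | ⟨_, ht⟩
    · have := Finset.le_max' (J i) _ ht
      omega
    · exact ⟨_, ((memY i _).1 ht).2⟩
  have hHJ : ∀ i, (H i).Nonempty → ∃ x ∈ J i, x < r := fun i hi => (hFH i).2 (heq i).1 hi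
  have hex : ∃ i, (J i).Nonempty := by
    obtain ⟨⟨x, i⟩, hz⟩ := hAne
    refine ⟨i, ?_⟩
    by_cases h : ∃ j < N, x = u j
    · obtain ⟨j, hj, rfl⟩ := h
      exact ⟨j, (memJ i j).2 ⟨hj, hz⟩⟩
    · push Not at h
      obtain ⟨y, hy, _⟩ := hHJ i ⟨x, (memH i x).2 ⟨(hC.V_iff x i).1 (hA hz), hz, h⟩⟩
      exact ⟨y, hy⟩
  obtain ⟨i0, hi0⟩ := hex
  have hall : ∀ n : ℕ, ∃ x ∈ J (i0 + 1 + (n : ZMod k)), x < r := by
    intro n
    induction n with
    | zero =>
      rw [Nat.cast_zero, add_zero]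
      exact hHJ _ (hJH _ hi0)
    | succ n ih =>
      obtain ⟨x, hx, _⟩ := ih
      have := hHJ _ (hJH _ ⟨x, hx⟩)
      rwa [show i0 + 1 + ((n + 1 : ℕ) : ZMod k) = i0 + 1 + (n : ZMod k) + 1 by push_cast; ring]
  have hall' : ∀ i, ∃ x ∈ J i, x < r := by
    intro i
    obtain ⟨n, hn⟩ := ZMod.natCast_zmod_surjective (i - (i0 + 1))
    have := hall n
    rwa [hn, add_sub_cancel] at this
  have hCVl : ∀ i, ∃ τ' ∈ Y i, τ' < r ∧ ∀ τ < r, u (N + τ) ∈ H i →
      r * ℓ + 1 + τ' ≤ r * ((H i).card + (J i).card) + τ := by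
    intro i
    refine CVl r N ℓ hr hN S u c hG hP hS (H i) (fun x hx => ((memH i x).1 hx).1)
      (fun j hj hx => ((memH i _).1 hx).2.2 j hj rfl) (J i) (Y i)
      (fun j hj => Finset.mem_range.2 ((memJ i j).1 hj).1) (hall' i) (F i) ?_ (heq i).1 (hJa i)
    intro a ha
    rw [memF, mem_col] at ha
    obtain ⟨haC, ⟨_, e, he, hx⟩, hac⟩ := ha
    refine ⟨haC, hac, ?_⟩
    rw [hC.E_ne a i hac] at he
    obtain ⟨x, y, hxy, rfl⟩ := he
    refine ⟨s(x, y), hxy, ?_⟩
    have key : ∀ z, (z, i) ∈ A → z ∈ H i ∨ ∃ j ∈ J i, z = u j := by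
      intro z hz
      by_cases h : ∃ j < N, z = u j
      · obtain ⟨j, hj, rfl⟩ := h
        exact Or.inr ⟨j, (memJ i j).2 ⟨hj, hz⟩, rfl⟩
      · push Not at h
        exact Or.inl ((memH i z).2 ⟨(hC.V_iff z i).1 (hA hz), hz, h⟩)
    intro z hz
    rcases Sym2.mem_iff.mp hz with rfl | rfl
    · exact key _ (hx _ (Sym2.mem_mk_left _ _))
    · exact key _ (hx _ (Sym2.mem_mk_right _ _))
  choose τf hτY hτr hτ using hCVl
  have hstep : ∀ i : ZMod k, r * ℓ + 1 + τf i ≤ r * ((H i).card + (J i).card) + τf (i - 1) := by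
    intro i
    have h1 := ((memY (i - 1) _).1 (hτY (i - 1))).2
    rw [sub_add_cancel] at h1
    exact hτ i _ (hτr (i - 1)) h1
  have hsum := Finset.sum_le_sum (s := (Finset.univ : Finset (ZMod k))) fun i _ => hstep i
  have hs1 : ∑ i : ZMod k, (r * ℓ + 1 + τf i) = k * (r * ℓ + 1) + ∑ i : ZMod k, τf i := by
    rw [Finset.sum_add_distrib, Finset.sum_const, Finset.card_univ, ZMod.card, smul_eq_mul]
  have hs2 : ∑ i : ZMod k, (r * ((H i).card + (J i).card) + τf (i - 1)) =
      r * ∑ i, ((H i).card + (J i).card) + ∑ i : ZMod k, τf (i - 1) := by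
    rw [Finset.sum_add_distrib, Finset.mul_sum]
  have hshift : ∑ i : ZMod k, τf (i - 1) = ∑ i : ZMod k, τf i :=
    Equiv.sum_comp (Equiv.subRight (1 : ZMod k)) τf
  rw [hs1, hs2, hshift] at hsum
  have h3 : r * ∑ i, ((H i).card + (J i).card) ≤ r * m :=
    Nat.mul_le_mul_left r (hAc.trans hAm)
  omega

end Pool.Agent.helper19.AR
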